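import Pool.Agent.TH936.ST.Hyb2
import Pool.Agent.W529.ST.Net

/-!
# Frobenius classes of a compatible family and Frobenius elements in finite Galois extensions

`K` is a number field, `X` the space of conjugacy classes of `ST_K` for a compatible family over `K` and
`x_v ∈ X` the class of the prime `v` (any point of `X` for `v ∈ S`).  The theorem is about the joint
distribution of `x_v` and of the Frobenius class of `v` in `Gal(L/K)`, for all finite Galois extensions
`L` of `K` at the same time.  It uses nothing about the `x_v`; for the Frobenius elements it uses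
Chebotarev's theorem.  The limits are taken along an ultrafilter `U` of sets of scales `N`, finer than
`N → ∞`; any infinite set of scales belongs to such a `U`.
-/

set_option autoImplicit false

namespace Pool.Agent.Results.MP_32ceeb_nt.FrobeniusIndependence

open NumberField IsDedekindDomain Filter Topology

section
variable {K : Type} [Field K] [NumberField K]

/-- `σ` is a Frobenius element at the prime `v` of `K`: there is a maximal ideal `Q` above `v` of the
ring of all algebraic integers with `σ x ≡ x ^ q_v` modulo `Q` for all `x`. -/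
def IsFrobenius (v : HeightOneSpectrum (𝓞 K)) (σ : Gal(AlgebraicClosure K/K)) : Prop :=
  ∃ Q : Ideal (𝓞 (AlgebraicClosure K)), Q.IsMaximal ∧
    Q.comap (algebraMap (𝓞 K) (𝓞 (AlgebraicClosure K))) = v.asIdeal ∧
    ∀ x : 𝓞 (AlgebraicClosure K), σ • x - x ^ Ideal.absNorm v.asIdeal ∈ Q

/-- The average of `g` over the primes of `K` of norm at most `N`. -/
noncomputable def avg (g : HeightOneSpectrum (𝓞 K) → ℝ) (N : ℕ) : ℝ :=
  (∑ᶠ v : {v : HeightOneSpectrum (𝓞 K) // Ideal.absNorm v.asIdeal ≤ N}, g v.1) /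
    (Nat.card {v : HeightOneSpectrum (𝓞 K) // Ideal.absNorm v.asIdeal ≤ N} : ℝ)

/-- `φ` is a class function on `Gal(L/K)`. -/
def IsClassFunction {L : IntermediateField K (AlgebraicClosure K)} (φ : Gal(L/K) → ℝ) : Prop :=
  ∀ g τ, φ (τ * g * τ⁻¹) = φ g

/-- The `L²`-norm of `φ` for the uniform probability measure on `Gal(L/K)`. -/
noncomputable def l2norm {L : IntermediateField K (AlgebraicClosure K)} (φ : Gal(L/K) → ℝ) : ℝ :=
  Real.sqrt ((∑ᶠ g : Gal(L/K), φ g ^ 2) / (Nat.card Gal(L/K) : ℝ))

/-- The average of `φ` over the elements `g` of `Gal(L/K)` with `g = σ` on `L ∩ M`. -/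
noncomputable def partOn (M L : IntermediateField K (AlgebraicClosure K)) (φ : Gal(L/K) → ℝ)
    (σ : Gal(AlgebraicClosure K/K)) : ℝ :=
  (∑ᶠ g : {g : Gal(L/K) // ∀ x : L, (x : AlgebraicClosure K) ∈ M →
    ((g x : L) : AlgebraicClosure K) = σ x}, φ g.1) /
    (Nat.card {g : Gal(L/K) // ∀ x : L, (x : AlgebraicClosure K) ∈ M →
      ((g x : L) : AlgebraicClosure K) = σ x} : ℝ)

/-- The test functions: `1`-Lipschitz with values in `[-1, 1]`. -/
def IsTest {X : Type} [MetricSpace X] (f : X → ℝ) : Prop := LipschitzWith 1 f ∧ ∀ t, |f t| ≤ 1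

/-- `M` governs the joint distribution up to `ε`: for all finite Galois extensions `L` of `K`, all class
functions `φ` on `Gal(L/K)` and all test functions `f`, the limit `α` along `U` of the averages of
`f(x_v) (φ(Frob_v) - φ_M(Frob_v))` is at most `ε ‖φ‖₂`.  Here `φ_M(Frob_v)` is the average of `φ` over
the elements that agree with `Frob_v` on `L ∩ M`. -/
def Governs {X : Type} [MetricSpace X] (x : HeightOneSpectrum (𝓞 K) → X)
    (frob : HeightOneSpectrum (𝓞 K) → Gal(AlgebraicClosure K/K)) (U : Ultrafilter ℕ) (ε : ℝ)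
    (M : IntermediateField K (AlgebraicClosure K)) : Prop :=
  ∀ (L : IntermediateField K (AlgebraicClosure K)) [FiniteDimensional K L] [IsGalois K L]
    (φ : Gal(L/K) → ℝ), IsClassFunction φ → ∀ f : X → ℝ, IsTest f →
    ∃ α : ℝ, Tendsto (avg fun v => f (x v) *
      (φ (AlgEquiv.restrictNormalHom L (frob v)) - partOn M L φ (frob v))) U (𝓝 α) ∧
      |α| ≤ ε * l2norm φ

/-- The case of extensions `L` with `L ∩ M = K` and of sets: for a union `C` of conjugacy classes of
`Gal(L/K)`, the limits `α` of the averages of `f(x_v)` over all `v` and `β` over the `v` with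
`Frob_v ∈ C` (divided by the number of all `v`) satisfy `|β - δ α| ≤ ε √δ`, where
`δ = |C| / |Gal(L/K)|`. -/
def Independent {X : Type} [MetricSpace X] (x : HeightOneSpectrum (𝓞 K) → X)
    (frob : HeightOneSpectrum (𝓞 K) → Gal(AlgebraicClosure K/K)) (U : Ultrafilter ℕ) (ε : ℝ)
    (M : IntermediateField K (AlgebraicClosure K)) : Prop :=
  ∀ (L : IntermediateField K (AlgebraicClosure K)) [FiniteDimensional K L] [IsGalois K L],
    L ⊓ M = ⊥ → ∀ C : Set Gal(L/K), (∀ g ∈ C, ∀ τ, τ * g * τ⁻¹ ∈ C) → ∀ f : X → ℝ, IsTest f →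
    ∃ α β : ℝ, Tendsto (avg fun v => f (x v)) U (𝓝 α) ∧
      Tendsto (avg fun v => f (x v) *
        C.indicator (fun _ => 1) (AlgEquiv.restrictNormalHom L (frob v))) U (𝓝 β) ∧
      |β - (C.ncard : ℝ) / (Nat.card Gal(L/K) : ℝ) * α| ≤
        ε * Real.sqrt ((C.ncard : ℝ) / (Nat.card Gal(L/K) : ℝ))

end

open Pool.Agent.TH936.ST.Hyb Pool.Agent.W401.Cheb Pool.Agent.W540.BE

section
variable {K : Type} [Field K] [NumberField K]

theorem avg_eq (g : HeightOneSpectrum (𝓞 K) → ℝ) : avg g = mn g := by
  funext N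
  have hs : ∀ v, v ∈ upto K N ↔ Ideal.absNorm v.asIdeal ≤ N := fun v => mem_upto
  let e : {v : HeightOneSpectrum (𝓞 K) // Ideal.absNorm v.asIdeal ≤ N} ≃ (upto K N) :=
    Equiv.subtypeEquivRight fun v => (hs v).symm
  have hfin : Finite {v : HeightOneSpectrum (𝓞 K) // Ideal.absNorm v.asIdeal ≤ N} :=
    Finite.of_equiv _ e.symm
  unfold avg mn
  congr 1
  · rw [← Finset.sum_coe_sort, ← finsum_eq_sum_of_fintype, ← finsum_comp_equiv e]
    rfl
  · rw [Nat.card_congr e, Nat.card_eq_fintype_card, Fintype.card_coe]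

theorem main {X : Type} [MetricSpace X] [CompactSpace X] (x : HeightOneSpectrum (𝓞 K) → X)
    {frob : HeightOneSpectrum (𝓞 K) → Gal(AlgebraicClosure K/K)}
    (hfrob : ∀ v, IsFrobenius v (frob v)) {U : Ultrafilter ℕ} (hU : (U : Filter ℕ) ≤ atTop)
    {ε : ℝ} (hε : 0 < ε) :
    ∃ M : IntermediateField K (AlgebraicClosure K), FiniteDimensional K M ∧ IsGalois K M ∧
      Governs x frob U ε M := by
  classical
  have hσ : ∀ v, IsFrob v (frob v) := hfrob
  obtain ⟨s, h, hh, hnet⟩ := Pool.Agent.W529.ST.exists_net X (ε := ε / 4) (by positivity)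
  have hc := fun k : Fin s => core (K := K) hσ hU (f := fun v => h k (x v)) (fun v => (hh k).2 _)
    (ε := ε / 8) (by positivity)
  choose W hWn hWo hW using hc
  set V : Subgroup (GK K) := ⨅ k, W k with hV
  have hVn : V.Normal := Subgroup.normal_iInf_normal hWn
  have hVo : IsOpen (V : Set (GK K)) := by
    rw [hV, Subgroup.coe_iInf]
    exact isOpen_iInter_of_finite hWo
  have hVc : IsClosed (V : Set (GK K)) := V.isClosed_of_isOpen hVo
  set M : IntermediateField K (AlgebraicClosure K) := IntermediateField.fixedField V with hM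
  have hMV : M.fixingSubgroup = V :=
    InfiniteGalois.fixingSubgroup_fixedField (⟨V, hVc⟩ : ClosedSubgroup (GK K))
  have h1 := (InfiniteGalois.isOpen_and_normal_iff_finite_and_isGalois M).1 (by
    rw [hMV]
    exact ⟨hVo, hVn⟩)
  obtain ⟨hfd, hgal⟩ := h1
  refine ⟨M, hfd, hgal, ?_⟩
  intro L _ _ φ hφ f hf
  -- the difference of `φ` and its part
  set d : GK K → ℝ := fun σ => φ (rs L σ) - part M L φ σ with hd
  have hφ' : ClsF φ := hφ
  have hlp := lc_part M L hφ'
  have hlr := lc_rs L hφ'
  have hld : LC d := by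
    refine ⟨fun g τ => ?_, ?_⟩
    · rw [hd]
      simp only
      have a0 := hlr.1 g τ
      simp only at a0
      rw [a0, hlp.1 g τ]
    · obtain ⟨W', a1, a2, a3, a4⟩ := hlr.pair hlp
      refine ⟨W', a1, a2, fun g u hu => ?_⟩
      rw [hd]
      simp only
      have a5 := a3 g u hu
      simp only at a5
      rw [a5, a4 g u hu]
  obtain ⟨a, ha⟩ := hld.sq.hasE hσ
  obtain ⟨b, hb⟩ := hlp.sq.hasE hσ
  have ha0 : 0 ≤ a := hasE_nonneg (fun g => sq_nonneg _) ha
  have hb0 : 0 ≤ b := hasE_nonneg (fun g => sq_nonneg _) hb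
  have hmz : MZ M.fixingSubgroup d := mz_part M L φ
  have hort := orth hσ hld hlp hmz (inv_part M L φ)
  have hsum : HasE frob (fun g => φ (rs L g) ^ 2) (a + b) := by
    have e1 : Tendsto (fun N => mn (fun v => d (frob v) ^ 2) N +
        2 * mn (fun v => d (frob v) * part M L φ (frob v)) N +
        mn (fun v => part M L φ (frob v) ^ 2) N) atTop (𝓝 (a + 2 * 0 + b)) :=
      (ha.add (hort.const_mul 2)).add hb
    rw [mul_zero, add_zero] at e1
    refine e1.congr fun N => ?_
    rw [← mn_mul, ← mn_add, ← mn_add]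
    congr 1
    funext v
    rw [hd]
    ring
  have hcl : ClsF fun g : Gal(L/K) => φ g ^ 2 := fun g τ => by
    simp only [hφ' g τ]
  have hfm := hasE_rs L hσ hcl
  have hab : a + b = fm fun g : Gal(L/K) => φ g ^ 2 := tendsto_nhds_unique hsum hfm
  have hl2 : l2norm φ = Real.sqrt (a + b) := by
    rw [hab]
    rfl
  have hsa : Real.sqrt a ≤ l2norm φ := by
    rw [hl2]
    exact Real.sqrt_le_sqrt (by linarith)
  -- the limit for the test function
  have hfb : ∀ v, |f (x v)| ≤ 1 := fun v => hf.2 _
  have htf := tendsto_Lam (σ := frob) (f := fun v => f (x v)) hU hfb hld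
  refine ⟨Lam frob U (fun v => f (x v)) d, ?_, ?_⟩
  · rw [avg_eq]
    exact htf
  · obtain ⟨k, hk⟩ := hnet f hf
    have hmzk : MZ (W k) d := by
      obtain ⟨ι, i1, i2, u, hu, hs⟩ := hmz
      refine ⟨ι, i1, i2, u, fun i => ?_, hs⟩
      have := hu i
      rw [hMV, hV, Subgroup.mem_iInf] at this
      exact this k
    have h2 := hW k d hld hmzk a ha
    have htk := tendsto_Lam (σ := frob) (f := fun v => h k (x v)) hU (fun v => (hh k).2 _) hld
    have h3 : |Lam frob U (fun v => f (x v)) d - Lam frob U (fun v => h k (x v)) d| ≤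
        ε / 4 * Real.sqrt a := by
      have h4 : Tendsto (fun N => |mn (fun v => f (x v) * d (frob v)) N -
          mn (fun v => h k (x v) * d (frob v)) N|) U
          (𝓝 |Lam frob U (fun v => f (x v)) d - Lam frob U (fun v => h k (x v)) d|) :=
        (htf.sub htk).abs
      have h5 : Tendsto (fun N => ε / 4 * Real.sqrt (mn (fun v => d (frob v) ^ 2) N)) U
          (𝓝 (ε / 4 * Real.sqrt a)) :=
        ((Real.continuous_sqrt.tendsto _).comp (ha.mono_left hU)).const_mul _
      refine le_of_tendsto_of_tendsto h4 h5 (Eventually.of_forall fun N => ?_)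
      have e1 : mn (fun v => f (x v) * d (frob v)) N - mn (fun v => h k (x v) * d (frob v)) N =
          mn (fun v => (f (x v) - h k (x v)) * d (frob v)) N := by
        unfold mn
        rw [← sub_div, ← Finset.sum_sub_distrib]
        congr 1
        exact Finset.sum_congr rfl fun v _ => by ring
      beta_reduce
      rw [e1]
      have h6 := mn_cs (fun v => f (x v) - h k (x v)) (fun v => d (frob v)) N
      have h7 : mn (fun v => (f (x v) - h k (x v)) ^ 2) N ≤ (ε / 4) ^ 2 := by
        refine (le_abs_self _).trans (abs_mn_le (by positivity) (fun v => ?_) N)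
        rw [abs_of_nonneg (sq_nonneg _), ← sq_abs]
        exact pow_le_pow_left₀ (abs_nonneg _) (hk _) 2
      have h8 : 0 ≤ mn (fun v => d (frob v) ^ 2) N := by
        unfold mn
        exact div_nonneg (Finset.sum_nonneg fun v _ => sq_nonneg _) (Nat.cast_nonneg _)
      rw [← Real.sqrt_sq_eq_abs]
      have h9 : mn (fun v => (f (x v) - h k (x v)) * d (frob v)) N ^ 2 ≤
          (ε / 4) ^ 2 * mn (fun v => d (frob v) ^ 2) N :=
        h6.trans (mul_le_mul_of_nonneg_right h7 h8)
      calc Real.sqrt (mn (fun v => (f (x v) - h k (x v)) * d (frob v)) N ^ 2) ≤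
            Real.sqrt ((ε / 4) ^ 2 * mn (fun v => d (frob v) ^ 2) N) := Real.sqrt_le_sqrt h9
        _ = ε / 4 * Real.sqrt (mn (fun v => d (frob v) ^ 2) N) := by
            rw [Real.sqrt_mul (sq_nonneg _), Real.sqrt_sq (by positivity)]
    have h10 : |Lam frob U (fun v => f (x v)) d| ≤ ε / 2 * Real.sqrt a := by
      have h11 : Lam frob U (fun v => f (x v)) d = (Lam frob U (fun v => f (x v)) d -
          Lam frob U (fun v => h k (x v)) d) + Lam frob U (fun v => h k (x v)) d := by ring
      rw [h11]
      refine (abs_add_le _ _).trans ?_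
      linarith
    refine h10.trans ?_
    have h12 : 0 ≤ Real.sqrt a := Real.sqrt_nonneg _
    nlinarith

theorem indep {X : Type} [MetricSpace X] (x : HeightOneSpectrum (𝓞 K) → X)
    {frob : HeightOneSpectrum (𝓞 K) → Gal(AlgebraicClosure K/K)}
    {U : Ultrafilter ℕ} (hU : (U : Filter ℕ) ≤ atTop)
    {ε : ℝ} {M : IntermediateField K (AlgebraicClosure K)} (hM : Governs x frob U ε M) :
    Independent x frob U ε M := by
  classical
  intro L _ _ hLM C hC f hf
  have hfinG : Finite Gal(L/K) := inferInstance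
  cases nonempty_fintype Gal(L/K)
  set χ : Gal(L/K) → ℝ := C.indicator fun _ => 1 with hχ
  have hcl : IsClassFunction χ := by
    intro g τ
    rw [hχ]
    by_cases hg : g ∈ C
    · rw [Set.indicator_of_mem hg, Set.indicator_of_mem (hC g hg τ)]
    · rw [Set.indicator_of_notMem hg, Set.indicator_of_notMem]
      intro h
      apply hg
      have := hC _ h τ⁻¹
      have e : τ⁻¹ * (τ * g * τ⁻¹) * τ⁻¹⁻¹ = g := by group
      rwa [e] at this
  obtain ⟨γ, hγ, hγ'⟩ := hM L χ hcl f hf
  set δ : ℝ := (C.ncard : ℝ) / (Nat.card Gal(L/K) : ℝ) with hδ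
  have hsum : ∑ g : Gal(L/K), χ g = (C.ncard : ℝ) := by
    rw [hχ, Set.ncard_eq_toFinset_card', Finset.sum_indicator_eq_sum_filter, Finset.sum_const,
      nsmul_eq_mul, mul_one]
    congr 2
    ext g
    simp
  have hpart : ∀ σ, partOn M L χ σ = δ := by
    intro σ
    have h1 : ∀ g : Gal(L/K), ∀ x : L, (x : AlgebraicClosure K) ∈ M →
        ((g x : L) : AlgebraicClosure K) = σ x := by
      intro g y hy
      have h2 : (y : AlgebraicClosure K) ∈ L ⊓ M := ⟨y.2, hy⟩
      rw [hLM, IntermediateField.mem_bot] at h2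
      obtain ⟨z, hz⟩ := h2
      have h3 : y = algebraMap K L z := Subtype.ext hz.symm
      rw [← hz, AlgEquiv.commutes, h3, AlgEquiv.commutes]
      rfl
    unfold partOn
    let e := Equiv.subtypeUnivEquiv h1
    rw [Nat.card_congr e, hδ, ← hsum, ← finsum_eq_sum_of_fintype]
    congr 1
    exact finsum_comp_equiv e (f := χ)
  have hl2 : l2norm χ = Real.sqrt δ := by
    unfold l2norm
    rw [hδ, ← hsum, finsum_eq_sum_of_fintype]
    congr 2
    refine Finset.sum_congr rfl fun g _ => ?_
    rw [hχ]
    by_cases hg : g ∈ C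
    · rw [Set.indicator_of_mem hg, one_pow]
    · rw [Set.indicator_of_notMem hg]
      norm_num
  have hb : ∃ B : ℝ, ∀ᶠ N : ℕ in atTop, |avg (fun v => f (x v)) N| ≤ B :=
    ⟨1, Eventually.of_forall fun N => by
      rw [avg_eq]
      exact abs_mn_le zero_le_one (fun v => hf.2 _) N⟩
  have hα := Pool.Agent.W529.ST.tendsto_uN hb U hU
  refine ⟨_, γ + δ * Pool.Agent.W529.ST.uN U (avg fun v => f (x v)), hα, ?_, ?_⟩
  · refine (hγ.add (hα.const_mul δ)).congr fun N => ?_
    rw [avg_eq, avg_eq, avg_eq, ← mn_mul, ← mn_add]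
    congr 1
    funext v
    rw [hpart]
    ring
  · rw [add_sub_cancel_right, ← hl2]
    exact hγ'

end

/-- **One finite Galois extension governs the joint distribution of the Frobenius classes `x_v` and of
the Frobenius elements in all finite Galois extensions of `K`.**  Let `K` be a number field, `X` a
compact metric space and `x_v` a point of `X` for every prime `v` of `K`.  For every ultrafilter `U` of
scales and every `ε > 0` there is a finite Galois extension `M` of `K` such that for every finite Galois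
extension `L` of `K`, of any degree, the class `x_v` and the Frobenius element in `Gal(L/K)` are
independent up to `ε` given the Frobenius element in `Gal(L ∩ M/K)`; if `L ∩ M = K`, they are
independent up to `ε`. -/
theorem result (K : Type) [Field K] [NumberField K] (X : Type) [MetricSpace X] [CompactSpace X]
    (x : HeightOneSpectrum (𝓞 K) → X)
    (frob : HeightOneSpectrum (𝓞 K) → Gal(AlgebraicClosure K/K))
    (hfrob : ∀ v, IsFrobenius v (frob v)) (U : Ultrafilter ℕ) (hU : (U : Filter ℕ) ≤ atTop)
    (ε : ℝ) (hε : 0 < ε) :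
    ∃ M : IntermediateField K (AlgebraicClosure K), FiniteDimensional K M ∧ IsGalois K M ∧
      Governs x frob U ε M ∧ Independent x frob U ε M := by
  obtain ⟨M, h1, h2, h3⟩ := main x hfrob hU hε
  exact ⟨M, h1, h2, h3, indep x hU h3⟩

end Pool.Agent.Results.MP_32ceeb_nt.FrobeniusIndependence
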