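import Pool.Agent.TH375.KL.FamGauss

set_option autoImplicit false

/-!
# Sato-Tate moments for almost all hypersurfaces of even dimension

Let `g ∈ ℤ[x₁, …, x_{2r+1}]` and let `e₁, …, e_m` be integral polynomials among which are all monomials of degree
at most `2k - 1`.  We consider the hypersurfaces `F = g + c₁ e₁ + … + c_m e_m = 0` with `c ∈ ℤ^m` in a box.  We prove
that for almost all members the averages over the primes `p ≤ x` of the `k`-th powers of the normalised
numbers of points `(#{F = 0}(𝔽_p) - p^{2r}) / p^r` are the moments of the standard normal distribution,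
which are those of the trace on the orthogonal group, with a square root error, for all `x ≤ √N` simultaneously.
-/

namespace Pool.Agent.Results.MP_32ceeb_nt.HypersurfaceMoments

open Finset

/-- the number of points over `𝔽_p` of the affine hypersurface `F = 0` -/
noncomputable def pts {n : ℕ} (p : ℕ) (F : MvPolynomial (Fin n) ℤ) : ℕ :=
  {u : Fin n → ZMod p | MvPolynomial.aeval u F = 0}.ncard

/-- the member `g + c₁ e₁ + … + c_m e_m` of the family -/
noncomputable def member {n m : ℕ} (g : MvPolynomial (Fin n) ℤ)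
    (e : Fin m → MvPolynomial (Fin n) ℤ) (c : Fin m → ℤ) : MvPolynomial (Fin n) ℤ :=
  g + ∑ j, MvPolynomial.C (c j) * e j

/-- the normalised number of points `(#{F = 0}(𝔽_p) - p^{2r}) / p^r` -/
noncomputable def normalised (r p : ℕ) (F : MvPolynomial (Fin (2 * r + 1)) ℤ) : ℝ :=
  ((pts p F : ℝ) - (p : ℝ) ^ (2 * r)) / (p : ℝ) ^ r

/-- the moments of the standard normal distribution: `1, 0, 1, 0, 3, 0, 15, …` -/
noncomputable def normalMoment : ℕ → ℝ
  | 0 => 1
  | 1 => 0
  | k + 2 => ((k : ℝ) + 1) * normalMoment k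

theorem gm_eq : ∀ k, TH375.KL.gm k = normalMoment k
  | 0 => by rw [TH375.KL.gm, normalMoment]
  | 1 => by rw [TH375.KL.gm, normalMoment]
  | k + 2 => by rw [TH375.KL.gm, normalMoment, gm_eq k]

/-- the weights -/
noncomputable def wt (r p : ℕ) (y : ZMod p) : ℝ :=
  ((if y = 0 then 1 else 0) - 1 / (p : ℝ)) / (p : ℝ) ^ r

theorem wt_sum {r p : ℕ} [hp : Fact p.Prime] : ∑ y, wt r p y = 0 := by
  have hp0 : (p : ℝ) ≠ 0 := by exact_mod_cast hp.out.ne_zero
  unfold wt
  rw [← sum_div, sum_sub_distrib, sum_ite_eq' univ (0 : ZMod p), sum_const, card_univ, ZMod.card,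
    nsmul_eq_mul, mul_one_div_cancel hp0]
  simp

theorem wt_sq {r p : ℕ} [hp : Fact p.Prime] :
    (p : ℝ) ^ (2 * r + 1) * ∑ y, wt r p y ^ 2 = p - 1 := by
  have hp0 : (p : ℝ) ≠ 0 := by exact_mod_cast hp.out.ne_zero
  unfold wt
  have h1 : ∀ y : ZMod p, (((if y = 0 then 1 else 0) - 1 / (p : ℝ)) / (p : ℝ) ^ r) ^ 2 =
      ((if y = 0 then (1 - 2 / (p : ℝ)) else 0) + 1 / (p : ℝ) ^ 2) / (p : ℝ) ^ (2 * r) := by
    intro y
    rw [div_pow, ← pow_mul, mul_comm r 2]
    congr 1
    split_ifs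
    · field_simp
      ring
    · field_simp
      ring
  rw [sum_congr rfl fun y _ => h1 y, ← sum_div, sum_add_distrib,
    sum_ite_eq' univ (0 : ZMod p), sum_const, card_univ, ZMod.card, nsmul_eq_mul,
    if_pos (mem_univ _), pow_succ]
  field_simp
  ring

theorem wt_good {r p : ℕ} [hp : Fact p.Prime] (hr : 1 ≤ r) :
    TH375.KL.Good (2 * r + 1) p (wt r p) := by
  have hp1 : (1 : ℝ) ≤ p := by exact_mod_cast hp.out.one_le
  have hp0 : (0 : ℝ) < p := by linarith
  have hs1 : 1 ≤ Real.sqrt p := Real.one_le_sqrt.2 hp1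
  have hss : Real.sqrt p * Real.sqrt p = p := Real.mul_self_sqrt hp0.le
  refine ⟨?_, wt_sum, ?_, ?_⟩
  · intro y
    unfold wt
    have h1 : |(if y = 0 then (1 : ℝ) else 0) - 1 / (p : ℝ)| ≤ 1 := by
      have h2 : 0 < 1 / (p : ℝ) := by positivity
      have h3 : 1 / (p : ℝ) ≤ 1 := by
        rw [div_le_one hp0]
        exact hp1
      rw [abs_le]
      split_ifs <;> constructor <;> linarith
    rw [abs_div, abs_of_pos (by positivity : (0 : ℝ) < (p : ℝ) ^ r)]
    refine div_le_div₀ zero_le_one h1 (by positivity) ?_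
    calc Real.sqrt p ≤ Real.sqrt p * Real.sqrt p := le_mul_of_one_le_left (by positivity) hs1
      _ = (p : ℝ) ^ 1 := by rw [hss, pow_one]
      _ ≤ (p : ℝ) ^ r := pow_le_pow_right₀ hp1 hr
  · rw [wt_sq]
    linarith
  · rw [wt_sq]
    have h1 : (1 - 1 / Real.sqrt p) * p = p - Real.sqrt p := by
      have h2 : (1 / Real.sqrt p) * p = Real.sqrt p := by
        rw [one_div, inv_mul_eq_div, div_eq_iff (by positivity : Real.sqrt (p : ℝ) ≠ 0)]
        exact hss.symm
      linear_combination -h2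
    rw [h1]
    linarith

theorem sum_wt {r m p : ℕ} [hp : Fact p.Prime] (g : MvPolynomial (Fin (2 * r + 1)) ℤ)
    (e : Fin m → MvPolynomial (Fin (2 * r + 1)) ℤ) (c : Fin m → ℤ) :
    ∑ u : Fin (2 * r + 1) → ZMod p, wt r p (TH375.KL.famVal g e p c u) =
      normalised r p (member g e c) := by
  classical
  have hp0 : (p : ℝ) ≠ 0 := by exact_mod_cast hp.out.ne_zero
  have h1 : ∀ u : Fin (2 * r + 1) → ZMod p, TH375.KL.famVal g e p c u =
      MvPolynomial.aeval u (member g e c) := by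
    intro u
    unfold TH375.KL.famVal member
    simp
  unfold wt normalised pts
  rw [← sum_div, sum_sub_distrib]
  congr 1
  congr 1
  · rw [← sum_filter, sum_const, nsmul_eq_mul, mul_one]
    have h2 : {u : Fin (2 * r + 1) → ZMod p | MvPolynomial.aeval u (member g e c) = 0} =
        ((univ.filter fun u => TH375.KL.famVal g e p c u = 0 :
          Finset (Fin (2 * r + 1) → ZMod p)) : Set (Fin (2 * r + 1) → ZMod p)) := by
      ext u
      rw [Set.mem_ofPred_eq, mem_coe, mem_filter, h1]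
      simp
    rw [h2, Set.ncard_coe_finset]
  · rw [sum_const, card_univ, Fintype.card_fun, ZMod.card, Fintype.card_fin, nsmul_eq_mul]
    push_cast
    rw [pow_succ]
    field_simp

/-- **Sato-Tate moments for almost all hypersurfaces** -/
theorem result (r m k : ℕ) (hr : 1 ≤ r) (hk : 1 ≤ k) : ∃ C : ℝ, 0 < C ∧
    ∀ (g : MvPolynomial (Fin (2 * r + 1)) ℤ) (e : Fin m → MvPolynomial (Fin (2 * r + 1)) ℤ),
    (∀ α : Fin (2 * r + 1) → ℕ, ∑ i, α i < 2 * k →
      ∃ j, e j = ∏ i, MvPolynomial.X i ^ α i) →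
    ∀ (A : Fin m → ℤ) (N z : ℕ), z ^ 2 ≤ N → ∀ K : ℝ, 0 < K →
    ({c : Fin m → ℤ | (∀ i, A i < c i ∧ c i ≤ A i + N) ∧ ∃ x : ℕ, 1 ≤ x ∧ x ≤ z ∧
      K * (x * ((Nat.log 2 x : ℝ) + 1) ^ 5) < (∑ p ∈ (range (x + 1)).filter Nat.Prime,
        (normalised r p (member g e c) ^ k - normalMoment k)) ^ 2}.ncard : ℝ) ≤
      C * (N : ℝ) ^ m / K := by
  obtain ⟨C, hC, h⟩ := TH375.KL.fam_gauss (2 * r + 1) m k (2 * k - 1) (by omega)
  refine ⟨C, hC, ?_⟩
  intro g e he A N z hzN K hK
  have h1 := h 0 (wt r) (fun p hp _ => wt_good hr) g e (fun α hα => he α (by omega)) A N z hzN K hK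
  refine le_trans (le_of_eq ?_) h1
  congr 2
  ext c
  rw [Set.mem_ofPred_eq, Set.mem_ofPred_eq]
  refine and_congr_right fun _ => exists_congr fun x => and_congr_right fun _ =>
    and_congr_right fun _ => ?_
  have h2 : (TH375.KL.Prm x).filter (· ≠ 0) = (range (x + 1)).filter Nat.Prime := by
    unfold TH375.KL.Prm
    rw [filter_filter]
    exact filter_congr fun p _ => ⟨fun hp => hp.1, fun hp => ⟨hp, hp.ne_zero⟩⟩
  rw [h2]
  have h3 : ∑ p ∈ (range (x + 1)).filter Nat.Prime,
      (TH375.KL.fam (wt r) g e k p c - TH375.KL.gm k) =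
      ∑ p ∈ (range (x + 1)).filter Nat.Prime,
        (normalised r p (member g e c) ^ k - normalMoment k) := by
    refine sum_congr rfl fun p hp => ?_
    rw [mem_filter] at hp
    have : Fact p.Prime := ⟨hp.2⟩
    unfold TH375.KL.fam
    rw [dif_pos hp.2, sum_wt, gm_eq]
  rw [h3]
  rfl

end Pool.Agent.Results.MP_32ceeb_nt.HypersurfaceMoments
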