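import Pool.Agent.TH129.ST.Grp

/-!
# The Sato-Tate conjecture in the sense of the logarithmic density and the point `s = 1`

Let `G` be a compact group with Haar measure `μ`, for instance the Sato-Tate group `ST^i(X)`, and `x_v`
an element of `G` for every prime `v` of a number field `K`, for instance `K = ℚ` and `x_p` in the
conjugacy class of the problem for all `p` outside the finite set `S ∪ {l}`.

* If `L(π, s) = ∏ det(1 - π(x_v) q_v^{-s})⁻¹` has a meromorphic continuation to a neighbourhood of the
  point `1`, then the order of its pole there is the mean value of `tr π(x_v)` in the sense of the
  logarithmic density, and also its mean value over `q_v ≤ T` if that has a limit.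
* Equidistribution gives equidistribution in the sense of the logarithmic density, and this gives the
  order of the pole of `L(π, s)` at `1`, which is zero for the nontrivial irreducible `π`.
* Suppose that all `L(π, s)`, `π` nontrivial and irreducible, have a meromorphic continuation to a
  neighbourhood of this point.  Then the `x_v` always have a limit distribution `ν` in the sense of the
  logarithmic density, and the orders of the poles are the integrals of the characters; it is the Haar
  measure if and only if no nontrivial irreducible `L(π, s)` has a zero or a pole at `1`, and the
  `x_v` are equidistributed if and only if moreover the mean values over `q_v ≤ T` have limits.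

Nothing is assumed about the other points of the line `Re s = 1`.
-/

set_option autoImplicit false

open NumberField IsDedekindDomain MeasureTheory

namespace Pool.Agent.Results.MP_32ceeb_nt.LogarithmicDensity

open Pool.Agent.TH129.ST (ClassLaw classLaw)

theorem result {K : Type} [Field K] [NumberField K] {G : Type} [Group G] [TopologicalSpace G]
    [IsTopologicalGroup G] [CompactSpace G] [T2Space G] [MeasurableSpace G] [BorelSpace G]
    (μ : Measure G) [IsProbabilityMeasure μ] [μ.IsHaarMeasure]
    (x : HeightOneSpectrum (𝓞 K) → G) : ClassLaw x μ := classLaw x

end Pool.Agent.Results.MP_32ceeb_nt.LogarithmicDensity
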