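import Pool.Agent.TH553.CZ.Inv2

/-!
# The Sato-Tate conjecture: from characteristic polynomials to conjugacy classes

`X` is smooth and projective over `K` (`K = ℚ` in the problem), `G` the Sato-Tate group of its
cohomology in an even degree and `x_v ∈ G` an element of the class of the prime `v` (any element at the
finitely many exceptional primes; this changes the `L`-functions below by finitely many factors without
zeros and poles in `Re s > 0`).  The point counts of `X` determine the characteristic polynomials of the
`x_v`, but these do not always determine the classes: for `G = SO(2m)` in its standard representation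
they determine them only up to conjugation by `O(2m)`, that is, up to an outer automorphism of `G` of
order two.

Let `H` be a group which acts on `G` by continuous automorphisms, for instance `H = O(2m)`, and suppose
that the classes of the `x_v` are equidistributed up to `H`: the averages of the continuous class
functions which are invariant under `H` tend to their Haar integrals.  Let `π_1, ..., π_r` be an orbit
of nontrivial irreducible representations under `H`.  The theorem says that the orders `m_i` of the
`L(π_i, s)` at a point of `Re s = 1` have the sum `0` and are all zero or satisfy `∑ m_i² < r - 1`, if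
there are local meromorphic continuations; in particular they are zero if `r ≤ 3`.  So if all orbits
have at most three elements (an outer automorphism of order two, or the rotations of the triality),
the `x_v` are equidistributed if the `L`-functions of the `π` that are not invariant under `H` have
meromorphic continuations to neighbourhoods of the points of `Re s = 1`.
-/

set_option autoImplicit false

namespace Pool.Agent.Results.MP_32ceeb_nt.UpToAutomorphisms

open NumberField IsDedekindDomain Filter Topology MeasureTheory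

section

variable {K : Type} [Field K] [NumberField K]

/-- The average of `φ` over the primes of `K` of norm at most `N`. -/
noncomputable def avg (φ : HeightOneSpectrum (𝓞 K) → ℂ) (N : ℕ) : ℂ :=
  (∑ᶠ v : {v : HeightOneSpectrum (𝓞 K) // Ideal.absNorm v.asIdeal ≤ N}, φ v.1) /
    (Nat.card {v : HeightOneSpectrum (𝓞 K) // Ideal.absNorm v.asIdeal ≤ N} : ℂ)

/-- The classes of the `x v` are equidistributed for `μ` up to the automorphisms of `G` given by the
elements of `H`: the averages of all continuous class functions which are invariant under `H` tend to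
their integrals. -/
def EquidistributedUpTo (H : Type) [Group H] {G : Type} [Group G] [MulDistribMulAction H G]
    [TopologicalSpace G] [MeasurableSpace G] (x : HeightOneSpectrum (𝓞 K) → G) (μ : Measure G) :
    Prop :=
  ∀ f : G → ℂ, Continuous f → (∀ g h, f (h * g * h⁻¹) = f g) → (∀ (s : H) g, f (s • g) = f g) →
    Tendsto (avg fun v => f (x v)) atTop (𝓝 (∫ g, f g ∂μ))

/-- The classes of the `x v` are equidistributed for `μ`. -/
def Equidistributed {G : Type} [Group G] [TopologicalSpace G] [MeasurableSpace G]
    (x : HeightOneSpectrum (𝓞 K) → G) (μ : Measure G) : Prop :=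
  ∀ f : G → ℂ, Continuous f → (∀ g h, f (h * g * h⁻¹) = f g) →
    Tendsto (avg fun v => f (x v)) atTop (𝓝 (∫ g, f g ∂μ))

end

section

variable {G : Type} [Group G] {n : ℕ}

/-- The character of `π`. -/
noncomputable def tr (π : G →* Matrix.unitaryGroup (Fin n) ℂ) (g : G) : ℂ :=
  (π g : Matrix (Fin n) (Fin n) ℂ).trace

/-- The unitary representation `π` is continuous, irreducible (only the scalars commute with all
matrices `π g`) and not trivial. -/
structure IsNontrivialIrreducible [TopologicalSpace G]
    (π : G →* Matrix.unitaryGroup (Fin n) ℂ) : Prop where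
  continuous : Continuous π
  schur : ∀ A : Matrix (Fin n) (Fin n) ℂ, (∀ g, (π g : Matrix (Fin n) (Fin n) ℂ) * A = A * π g) →
    ∃ c : ℂ, A = c • (1 : Matrix (Fin n) (Fin n) ℂ)
  nontrivial : ∃ g, π g ≠ 1

/-- The orbit of the character of `π` under `H`: the functions `g ↦ tr π (s g)` for `s` in `H`. -/
def orbit (H : Type) [Group H] [MulDistribMulAction H G]
    (π : G →* Matrix.unitaryGroup (Fin n) ℂ) : Set (G → ℂ) :=
  Set.range fun (s : H) g => tr π (s • g)

/-- The `π i` are pairwise different representations of the same dimension and they are permuted by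
`H`, for instance because they are an orbit. -/
structure IsStable (H : Type) [Group H] [MulDistribMulAction H G] {ι : Type}
    (π : ι → G →* Matrix.unitaryGroup (Fin n) ℂ) : Prop where
  different : ∀ i j, i ≠ j → ∃ g, tr (π i) g ≠ tr (π j) g
  stable : ∀ (s : H) i, ∃ j, ∀ g, tr (π i) (s • g) = tr (π j) g

variable {K : Type} [Field K] [NumberField K]

/-- The Euler product `L(π, s) = ∏_v det(1 - q_v^{-s} π(x_v))⁻¹`. -/
noncomputable def LFun (π : G →* Matrix.unitaryGroup (Fin n) ℂ) (x : HeightOneSpectrum (𝓞 K) → G)
    (s : ℂ) : ℂ :=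
  ∏' v : HeightOneSpectrum (𝓞 K), (Matrix.det (1 - ((Ideal.absNorm v.asIdeal : ℂ) ^ (-s)) •
    (π (x v) : Matrix (Fin n) (Fin n) ℂ)))⁻¹

/-- `log |L(π, 1 + iτ + ε)| / log (1/ε)`. -/
noncomputable def size (π : G →* Matrix.unitaryGroup (Fin n) ℂ) (x : HeightOneSpectrum (𝓞 K) → G)
    (τ ε : ℝ) : ℝ := Real.log ‖LFun π x (1 + τ * Complex.I + ε)‖ / Real.log (1 / ε)

/-- `Λ` is a meromorphic continuation of `L(π, s)` to a neighbourhood of `1 + iτ`. -/
def IsContinuation (π : G →* Matrix.unitaryGroup (Fin n) ℂ) (x : HeightOneSpectrum (𝓞 K) → G)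
    (τ : ℝ) (Λ : ℂ → ℂ) : Prop :=
  MeromorphicAt Λ (1 + τ * Complex.I) ∧
    ∀ᶠ s in 𝓝 ((1 : ℂ) + τ * Complex.I), (1 : ℝ) < s.re → Λ s = LFun π x s

end

section Bridge

set_option linter.unusedSectionVars false

open Pool.Agent.TH553.ST Pool.Agent.TH553.RS Pool.Agent.W540.BE Pool.Agent.TH553.CZ

variable {K : Type} [Field K] [NumberField K]

theorem avg_eq (g : HeightOneSpectrum (𝓞 K) → ℂ) : avg g = mn g := by
  funext N
  have hs : ∀ v, v ∈ upto K N ↔ Ideal.absNorm v.asIdeal ≤ N := fun v => mem_upto
  let e : {v : HeightOneSpectrum (𝓞 K) // Ideal.absNorm v.asIdeal ≤ N} ≃ (upto K N) :=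
    Equiv.subtypeEquivRight fun v => (hs v).symm
  have hfin : Finite {v : HeightOneSpectrum (𝓞 K) // Ideal.absNorm v.asIdeal ≤ N} :=
    Finite.of_equiv _ e.symm
  unfold avg mn
  have h1 : (∑ᶠ v : {v : HeightOneSpectrum (𝓞 K) // Ideal.absNorm v.asIdeal ≤ N}, g v.1) =
      ∑ v ∈ upto K N, g v := by
    rw [← Finset.sum_coe_sort, ← finsum_eq_sum_of_fintype, ← finsum_comp_equiv e]
    rfl
  have h2 : Nat.card {v : HeightOneSpectrum (𝓞 K) // Ideal.absNorm v.asIdeal ≤ N} =
      (upto K N).card := by
    rw [Nat.card_congr e, Nat.card_eq_fintype_card, Fintype.card_coe]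
  rw [h1, h2, Complex.real_smul, div_eq_inv_mul]
  push_cast
  rfl

end Bridge

/-- **From classes up to automorphisms to classes.**  Let `K` be a number field, `G` a compact group with
Haar probability measure `μ`, `H` a group which acts on `G` by continuous automorphisms and `x_v ∈ G`
for the primes `v` of `K`, such that the classes of the `x_v` are equidistributed up to `H`.

I.  Let `π_i` be `r` nontrivial irreducible representations of `G`, pairwise different, of the same
dimension and permuted by `H`.  Then for every `τ`, with `X_i(ε) = log |L(π_i, 1 + iτ + ε)| / log (1/ε)`: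
`L(π_i, 1 + iτ + ε) ≠ 0` for small `ε > 0`, `∑ X_i(ε)` tends to `0`, and if `r ≥ 2`, then
`∑ X_i(ε)² ≤ r - 1 - δ` for some `δ > 0` and all small `ε > 0`.  If there are meromorphic continuations
of the `L(π_i, s)` to neighbourhoods of `1 + iτ`, then their orders `m_i` at `1 + iτ` are integers with
`∑ m_i = 0`, they are all zero or satisfy `∑ m_i² < r - 1`, and they are all zero if `r ≤ 3`.

II.  Suppose that the orbits of the characters of all nontrivial irreducible representations of `G` under
`H` have at most three elements, and that for every nontrivial irreducible representation `π` whose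
character is not invariant under `H` and for every `τ` there is a meromorphic continuation of `L(π, s)`
to a neighbourhood of `1 + iτ`.  Then the classes of the `x_v` are equidistributed in `G`. -/
theorem result (K : Type) [Field K] [NumberField K]
    (G : Type) [Group G] [TopologicalSpace G] [IsTopologicalGroup G] [CompactSpace G] [T2Space G]
    [MeasurableSpace G] [BorelSpace G] (μ : Measure G)
    [IsProbabilityMeasure μ] [μ.IsHaarMeasure]
    (H : Type) [Group H] [MulDistribMulAction H G] [ContinuousConstSMul H G]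
    (x : HeightOneSpectrum (𝓞 K) → G) (hx : EquidistributedUpTo H x μ) :
    (∀ (ι : Type) [Fintype ι] (n : ℕ) (π : ι → G →* Matrix.unitaryGroup (Fin n) ℂ),
      (∀ i, IsNontrivialIrreducible (π i)) → IsStable H π → ∀ τ : ℝ,
        (∀ i, ∀ᶠ ε : ℝ in 𝓝[>] 0, LFun (π i) x (1 + τ * Complex.I + ε) ≠ 0) ∧
        Tendsto (fun ε => ∑ i, size (π i) x τ ε) (𝓝[>] 0) (𝓝 0) ∧
        (2 ≤ Fintype.card ι → ∃ δ : ℝ, 0 < δ ∧ ∀ᶠ ε : ℝ in 𝓝[>] 0,
          ∑ i, size (π i) x τ ε ^ 2 ≤ (Fintype.card ι : ℝ) - 1 - δ) ∧
        ∀ Λ : ι → ℂ → ℂ, (∀ i, IsContinuation (π i) x τ (Λ i)) →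
          ∃ m : ι → ℤ, (∀ i, meromorphicOrderAt (Λ i) (1 + τ * Complex.I) = m i) ∧
            ∑ i, m i = 0 ∧ ((∀ i, m i = 0) ∨ ∑ i, (m i : ℝ) ^ 2 < (Fintype.card ι : ℝ) - 1) ∧
            (Fintype.card ι ≤ 3 → ∀ i, m i = 0)) ∧
    ((∀ (n : ℕ) (π : G →* Matrix.unitaryGroup (Fin n) ℂ), IsNontrivialIrreducible π →
        (orbit H π).Finite ∧ (orbit H π).ncard ≤ 3) →
      (∀ (n : ℕ) (π : G →* Matrix.unitaryGroup (Fin n) ℂ), IsNontrivialIrreducible π →
        (∃ (s : H) (g : G), tr π (s • g) ≠ tr π g) → ∀ τ : ℝ, ∃ Λ, IsContinuation π x τ Λ) →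
      Equidistributed x μ) := by
  have hx' : Pool.Agent.TH553.CZ.LawH H x μ := by
    intro f h1 h2 h3
    rw [← avg_eq]
    exact hx f h1 h2 h3
  refine ⟨fun ι _ n π hπ hst τ => ?_, fun horb hcont f hf hcl => ?_⟩
  · have S : Pool.Agent.TH553.CZ.Stab H π :=
      ⟨fun i => (hπ i).continuous, fun i => (hπ i).schur, fun i => (hπ i).nontrivial,
        fun i j hij heq => by
          obtain ⟨g, hg⟩ := hst.different i j hij
          exact hg (congrFun heq g), hst.stable⟩
    refine ⟨fun i => (Pool.Agent.TH553.ST.size_L1 (π i) x τ).1, S.size_sum hx' τ,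
      fun hr => S.size_sq hx' hr τ, fun Λ hΛ => ?_⟩
    choose m hm1 hm2 using fun i => Pool.Agent.TH553.ST.order_L1 (hΛ i).1 (hΛ i).2
    obtain ⟨h1, h2⟩ := S.orders hx' hm2
    exact ⟨m, hm1, h1, h2, S.orders_three hx' hm2⟩
  · rw [avg_eq]
    refine Pool.Agent.TH553.ST.weyl (fun n π hc hs hnt => ?_) hf hcl
    have hirr : IsNontrivialIrreducible π := ⟨hc, hs, hnt⟩
    by_cases hinv : ∀ (s : H) (g : G), tr π (s • g) = tr π g
    · have h3 := hx' (Pool.Agent.TH553.ST.chi π) (Pool.Agent.TH553.ST.cont_chi hc)
        (fun g h => Pool.Agent.TH553.ST.chi_cls π g h) hinv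
      rwa [Pool.Agent.TH553.ST.int_chi hc hs hnt] at h3
    · push Not at hinv
      obtain ⟨hfin, hcard⟩ := horb n π hirr
      obtain ⟨ι, hι, s, h1, ⟨i₀, hi₀⟩, S⟩ :=
        Pool.Agent.TH553.CZ.stab_orb (H := H) π hc hs hnt hfin
      have hcard' : Fintype.card ι ≤ 3 := by
        rw [h1]
        exact hcard
      -- all conjugates have continuations
      have hco : ∀ i, ∀ τ : ℝ, ∃ Λ, IsContinuation (Pool.Agent.TH553.CZ.cg (s i) π) x τ Λ := by
        intro i
        refine hcont n _ ⟨S.cont i, S.schur i, S.nt i⟩ ?_
        obtain ⟨t, g, htg⟩ := hinv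
        by_contra hcon
        push Not at hcon
        apply htg
        have h2 : ∀ (u : H) (k : G), tr π (s i • u • k) = tr π (s i • k) := hcon
        have h3 := h2 ((s i)⁻¹ * t) g
        have h4 := h2 ((s i)⁻¹) g
        rw [smul_smul, mul_inv_cancel_left] at h3
        rw [smul_smul, mul_inv_cancel, one_smul] at h4
        rw [h3, h4]
      have hmean : Tendsto (Pool.Agent.TH553.ST.mn fun v =>
          Pool.Agent.TH553.ST.chi (Pool.Agent.TH553.CZ.cg (s i₀) π) (x v)) atTop (𝓝 0) := by
        refine Pool.Agent.TH553.ST.avg_L1 fun τ => ?_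
        choose Λ hΛ using fun i => hco i τ
        choose m hm1 hm2 using fun i => Pool.Agent.TH553.ST.order_L1 (hΛ i).1 (hΛ i).2
        refine ⟨Λ i₀, (hΛ i₀).1, (hΛ i₀).2, ?_⟩
        rw [hm1 i₀, S.orders_three hx' hm2 hcard' i₀]
      refine hmean.congr fun N => ?_
      congr 1
      funext v
      exact hi₀ (x v)

end Pool.Agent.Results.MP_32ceeb_nt.UpToAutomorphisms
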